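import Pool.Agent.RRG.Final

/-!
For every `ε > 0` and every sequence `d n` with `n ^ (1/4 + ε) ≤ d n ≤ n / 2` (for all large `n` with `n * d n` even),
the uniformly random `d n`-regular graph on `n` vertices is asymptotically almost surely reconstructable from its
2-neighbourhoods.
-/

open Filter Topology

namespace Pool.Agent.Results.MP_d15a9b_pr.ShotgunRegular

open Pool.Agent.Shotgun

/-- Dense random regular graphs are reconstructable from their 2-neighbourhoods, down to degree `n ^ (1/4 + ε)`. -/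
theorem result : ∀ ε : ℝ, 0 < ε → ∀ d : ℕ → ℕ,
    (∀ᶠ n : ℕ in atTop, Even (n * d n) → (n : ℝ) ^ (1 / 4 + ε) ≤ (d n : ℝ) ∧ (d n : ℝ) ≤ (n : ℝ) / 2) →
    Tendsto (fun n : ℕ => probReconstructable 2 n (d n)) (atTop ⊓ 𝓟 {n : ℕ | Even (n * d n)}) (𝓝 1) :=
  fun ε hε d hd => Pool.Agent.RRG.Final.main ε hε d hd

end Pool.Agent.Results.MP_d15a9b_pr.ShotgunRegular
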